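import Pool.Agent.Helper37.OF.St

/-!
# Project OF, module CYC: cyclically reduced words
-/

set_option autoImplicit false

namespace Pool.Agent.Helper6.OF

open Pool.Agent.Helper37.OF Monoid Pool.Agent.Helper4.FS

universe u v w x

section

variable {G : Type w} [Group G] {I : Type x}

theorem lp_nil : lp ([] : List (I × G)) = 1 := rfl

theorem lp_cons (p : I × G) (L : List (I × G)) : lp (p :: L) = ofi p.1 p.2 * lp L := by
  simp only [Pool.Agent.Helper37.OF.lp, List.map_cons, List.prod_cons]

theorem lp_append (L M : List (I × G)) : lp (L ++ M) = lp L * lp M := by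
  simp only [Pool.Agent.Helper37.OF.lp, List.map_append, List.prod_append]

theorem lp_rep (L : List (I × G)) (N : ℕ) : lp (List.replicate N L).flatten = lp L ^ N := by
  induction N with
  | zero => simp [Pool.Agent.Helper37.OF.lp]
  | succ n ih => rw [List.replicate_succ, List.flatten_cons, lp_append, ih, pow_succ']

open Classical in
theorem ret_lp (z : I) (L : List (I × G)) :
    ret G I {i | i ≠ z} (lp L) = lp (L.filter fun q => q.1 ≠ z) := by
  induction L with
  | nil => simp [Pool.Agent.Helper37.OF.lp]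
  | cons p L ih =>
    rw [lp_cons, map_mul, ih]
    by_cases h : p.1 = z
    · rw [ret_of_notMem (Y := {i | i ≠ z}) (fun h' => h' h), one_mul, List.filter_cons_of_neg]
      simpa using h
    · rw [ret_of_mem (Y := {i | i ≠ z}) h, List.filter_cons_of_pos, lp_cons]
      simpa using h

omit [Group G] in
theorem head_flatten (L : List (I × G)) (N : ℕ) (y : I × G)
    (h : y ∈ (List.replicate N L).flatten.head?) (hL : L ≠ []) : y = L.head hL := by
  cases N with
  | zero => simp at h
  | succ n =>
    rw [List.replicate_succ, List.flatten_cons, List.head?_append_of_ne_nil _ hL,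
      List.head?_eq_some_head hL, Option.mem_some_iff] at h
    exact h.symm

omit [Group G] in
theorem chain_rep (L : List (I × G)) (hL : L ≠ []) (hc : L.IsChain (fun p q => p.1 ≠ q.1))
    (hh : (L.getLast hL).1 ≠ (L.head hL).1) (N : ℕ) :
    ((List.replicate N L).flatten).IsChain (fun p q => p.1 ≠ q.1) := by
  induction N with
  | zero => simp
  | succ n ih =>
    rw [List.replicate_succ, List.flatten_cons, List.isChain_append]
    refine ⟨hc, ih, fun x hx y hy => ?_⟩
    rw [List.getLast?_eq_some_getLast hL, Option.mem_some_iff] at hx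
    rw [head_flatten L n y hy hL, ← hx]
    exact hh

end

theorem hCYC (hLEN : StLEN.{w, x}) : StCYC.{w, x} := by
  classical
  intro G _ I L hL hne hch hlast p hp v hv hconj
  obtain ⟨ℓ, h1, h2, h3, h4⟩ := hLEN G I
  have h5 : ∀ M : List (I × G), ℓ (lp M) ≤ M.length := by
    intro M
    induction M with
    | nil => rw [lp_nil, h3]; exact Nat.zero_le _
    | cons q M ih =>
      rw [lp_cons, List.length_cons]
      have := h1 (ofi q.1 q.2) (lp M)
      have := h2 q.1 q.2
      omega
  obtain ⟨c, hc⟩ := isConj_iff.1 hconj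
  set ρ := ret G I {i | i ≠ p.1} with hρ
  have hv' : ρ v = v := hv
  have hd : lp L = (c⁻¹ * ρ c) * ρ (lp L) * (c⁻¹ * ρ c)⁻¹ := by
    have e1 : ρ c * ρ (lp L) * (ρ c)⁻¹ = v := by
      rw [← map_inv, ← map_mul, ← map_mul, hc, hv']
    have e2 : (c⁻¹ * ρ c) * ρ (lp L) * (c⁻¹ * ρ c)⁻¹ = c⁻¹ * (ρ c * ρ (lp L) * (ρ c)⁻¹) * c := by
      group
    rw [e2, e1, ← hc]
    group
  set d := c⁻¹ * ρ c
  set M := L.filter fun q => q.1 ≠ p.1 with hM
  have hML : M.length + 1 ≤ L.length := by
    rw [Nat.succ_le_iff, hM, List.length_filter_lt_length_iff_exists]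
    exact ⟨p, hp, by simp⟩
  have hr : ρ (lp L) = lp M := ret_lp p.1 L
  have key : ∀ N : ℕ, N * L.length ≤ ℓ d + ℓ d⁻¹ + N * M.length := by
    intro N
    have a1 : ℓ (lp L ^ N) = N * L.length := by
      rw [← lp_rep, h4 _ (fun q hq => ?_) (chain_rep L hL hch hlast N)]
      · simp
      · obtain ⟨l, hl, hql⟩ := List.mem_flatten.1 hq
        rw [List.eq_of_mem_replicate hl] at hql
        exact hne q hql
    have a2 : lp L ^ N = d * lp (List.replicate N M).flatten * d⁻¹ := by
      conv_lhs => rw [hd]
      rw [conj_pow, hr, lp_rep]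
    have a3 := h5 (List.replicate N M).flatten
    have a4 : (List.replicate N M).flatten.length = N * M.length := by simp
    have a5 := h1 (d * lp (List.replicate N M).flatten) d⁻¹
    have a6 := h1 d (lp (List.replicate N M).flatten)
    rw [← a1, a2]
    omega
  have hk := key (ℓ d + ℓ d⁻¹ + 1)
  have hk2 : (ℓ d + ℓ d⁻¹ + 1) * (M.length + 1) ≤ (ℓ d + ℓ d⁻¹ + 1) * L.length :=
    Nat.mul_le_mul_left _ hML
  rw [Nat.mul_add, Nat.mul_one] at hk2
  omega

end Pool.Agent.Helper6.OF
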